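import Mathlib

/-!
# `y² + x² y + z² x + 1 = 0` has `k`-large integer solutions for every `k`

If `u² - 2 v² = 7` then `x = v² + 4 = (u² + 1)/2`, `y = (u (x + 2) - x²)/2`, `z = v (x + 1)/2`
is a solution. Below `u = 2p+1`, `v = 2q+1`.
-/

namespace Pool.Agent.Results.MP_b003da_nt.AllCoordinatesLarge

/-- Arbitrarily large odd solutions of `u² - 2v² = 7`, written `u = 2p+1`, `v = 2q+1`. -/
lemma pell (n : ℕ) : ∃ p q : ℤ, p ^ 2 + p = 2 * q ^ 2 + 2 * q + 2 ∧ 0 ≤ p ∧ (n : ℤ) ≤ q := by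
  induction n with
  | zero => exact ⟨1, 0, by norm_num, by norm_num, by norm_num⟩
  | succ n ih =>
    obtain ⟨p, q, h, hp, hq⟩ := ih
    refine ⟨3 * p + 4 * q + 3, 2 * p + 3 * q + 2, ?_, by omega, by push_cast; omega⟩
    linear_combination h

/-- For every `k` the equation `y² + x² y + z² x + 1 = 0` has an integer solution all of whose
coordinates have absolute value at least `k`. -/
theorem result : ∀ k : ℕ, ∃ x y z : ℤ, y ^ 2 + x ^ 2 * y + z ^ 2 * x + 1 = 0 ∧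
    (k : ℤ) ≤ |x| ∧ (k : ℤ) ≤ |y| ∧ (k : ℤ) ≤ |z| := by
  intro k
  obtain ⟨p, q, h, hp, hq⟩ := pell (k + 10)
  push_cast at hq
  have hk : (0 : ℤ) ≤ k := by positivity
  have hq0 : 0 ≤ q := by linarith
  have hpq : p ≤ 2 * q := by
    by_contra hcon
    have h1 : 2 * q + 1 ≤ p := by omega
    nlinarith
  have hy : p * (4 * q ^ 2 + 4 * q + 7) ≤ 2 * q * (4 * q ^ 2 + 4 * q + 7) :=
    mul_le_mul_of_nonneg_right hpq (by positivity)
  have hq2 : 10 * q ≤ q ^ 2 := by nlinarith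
  have hq3 : 10 * q ^ 2 ≤ q ^ 3 := by nlinarith [sq_nonneg q]
  have hq4 : 10 * q ^ 3 ≤ q ^ 4 := by nlinarith [pow_nonneg hq0 3]
  refine ⟨4 * q ^ 2 + 4 * q + 5,
    p * (4 * q ^ 2 + 4 * q + 7) - (8 * q ^ 4 + 16 * q ^ 3 + 26 * q ^ 2 + 18 * q + 9),
    (2 * q + 1) * (2 * q ^ 2 + 2 * q + 3), ?_, ?_, ?_, ?_⟩
  · linear_combination (4 * q ^ 2 + 4 * q + 7) ^ 2 * h
  · rw [abs_of_nonneg (by positivity)]; nlinarith
  · rw [abs_of_nonpos (by nlinarith)]; nlinarith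
  · have h1 : (2 * q + 1) * (2 * q ^ 2 + 2 * q + 3) = 4 * q ^ 3 + 6 * q ^ 2 + 8 * q + 3 := by ring
    rw [h1, abs_of_nonneg (by positivity)]; nlinarith

end Pool.Agent.Results.MP_b003da_nt.AllCoordinatesLarge
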